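import Mathlib

/-!
# Minimal strongly biconnected digraphs

A digraph on the finite vertex set `V` is given by its set of arcs `A : Finset (V × V)`.
We show that a minimal strongly biconnected digraph on `n ≥ 3` vertices has at most `2 n - 3` arcs
(and at most `2 n` arcs for every `n`).
-/

set_option autoImplicit false

namespace Pool.Agent.Results.MP_5e4462_co.ArcBound

open Relation

variable {V : Type}

/-- every vertex can be reached from every vertex along arcs of `A` -/
def StronglyConnected (A : Finset (V × V)) : Prop :=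
  ∀ u v : V, ReflTransGen (fun x y => (x, y) ∈ A) u v

/-- adjacency in the underlying undirected graph of `A` with the vertex `z` deleted -/
def Und (A : Finset (V × V)) (z x y : V) : Prop :=
  x ≠ z ∧ y ≠ z ∧ ((x, y) ∈ A ∨ (y, x) ∈ A)

/-- the underlying undirected graph has no articulation point: for every vertex `z`, any two vertices
different from `z` are connected in the underlying graph with `z` deleted -/
def NoArticulation (A : Finset (V × V)) : Prop :=
  ∀ z u v : V, u ≠ z → v ≠ z → ReflTransGen (Und A z) u v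

/-- `A` is the arc set of a strongly biconnected digraph (without loops) -/
def StronglyBiconnected (A : Finset (V × V)) : Prop :=
  (∀ a ∈ A, a.1 ≠ a.2) ∧ StronglyConnected A ∧ NoArticulation A

/-- `A` is strongly biconnected and deleting any arc destroys this -/
def Minimal [DecidableEq V] (A : Finset (V × V)) : Prop :=
  StronglyBiconnected A ∧ ∀ e ∈ A, ¬ StronglyBiconnected (A.erase e)

/-! ### Open ears -/

theorem sub_chain {R : V → V → Prop} {l m : List V} (h : List.IsChain R l) (a b : List V)
    (he : a ++ m ++ b = l) : List.IsChain R m := by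
  subst he
  exact h.left_of_append.right_of_append

theorem und_symm {A : Finset (V × V)} {z x y : V} (h : Und A z x y) : Und A z y x :=
  ⟨h.2.1, h.1, h.2.2.symm⟩

theorem und_rtg_symm {A : Finset (V × V)} {z x y : V} (h : ReflTransGen (Und A z) x y) :
    ReflTransGen (Und A z) y x := by
  induction h with
  | refl => exact ReflTransGen.refl
  | tail _ hbc ih => exact ReflTransGen.head (und_symm hbc) ih

/-- the arcs with both ends outside `W` -/
def Out (A : Finset (V × V)) (W : Finset V) (x y : V) : Prop := (x, y) ∈ A ∧ x ∉ W ∧ y ∉ W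

/-- `w ∈ W` reaches `z` through vertices outside `W` -/
def Src (A : Finset (V × V)) (W : Finset V) (z w : V) : Prop :=
  w ∈ W ∧ ∃ x, x ∉ W ∧ (w, x) ∈ A ∧ ReflTransGen (Out A W) x z

/-- `z` reaches `w ∈ W` through vertices outside `W` -/
def Snk (A : Finset (V × V)) (W : Finset V) (z w : V) : Prop :=
  w ∈ W ∧ ∃ y, y ∉ W ∧ (y, w) ∈ A ∧ ReflTransGen (Out A W) z y

theorem exists_src {A : Finset (V × V)} {W : Finset V} {u z : V} (hu : u ∈ W) (hz : z ∉ W)
    (h : ReflTransGen (fun x y => (x, y) ∈ A) u z) : ∃ w, Src A W z w := by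
  induction h with
  | refl => exact absurd hu hz
  | tail hab hbc ih =>
    rename_i b c
    by_cases hb : b ∈ W
    · exact ⟨b, hb, c, hz, hbc, ReflTransGen.refl⟩
    · obtain ⟨w, hw, x, hx, hwx, hxb⟩ := ih hb
      exact ⟨w, hw, x, hx, hwx, hxb.tail ⟨hbc, hb, hz⟩⟩

theorem exists_snk {A : Finset (V × V)} {W : Finset V} {u z : V} (hu : u ∈ W) (hz : z ∉ W)
    (h : ReflTransGen (fun x y => (x, y) ∈ A) z u) : ∃ w, Snk A W z w := by
  induction h using ReflTransGen.head_induction_on with
  | refl => exact absurd hu hz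
  | head hab hbc ih =>
    rename_i a c
    by_cases hc : c ∈ W
    · exact ⟨c, hc, a, hz, hab, ReflTransGen.refl⟩
    · obtain ⟨w, hw, y, hy, hyw, hcy⟩ := ih hc
      exact ⟨w, hw, y, hy, hyw, ReflTransGen.head ⟨hab, hz, hc⟩ hcy⟩

/-- from a walk outside `W` to a list -/
theorem out_list {A : Finset (V × V)} {W : Finset V} {x y : V} (hx : x ∉ W)
    (h : ReflTransGen (Out A W) x y) : ∃ p : List V, (∀ m ∈ x :: p, m ∉ W) ∧
      List.IsChain (fun u v => (u, v) ∈ A) (x :: p) ∧ (x :: p).getLast (by simp) = y := by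
  induction h using ReflTransGen.head_induction_on with
  | refl => exact ⟨[], by simpa using hx, List.isChain_singleton _, rfl⟩
  | head hab hbc ih =>
    rename_i a c
    obtain ⟨p, h1, h2, h3⟩ := ih hab.2.2
    refine ⟨c :: p, ?_, ?_, ?_⟩
    · intro m hm
      rcases List.mem_cons.1 hm with rfl | hm
      · exact hab.2.1
      · exact h1 m hm
    · exact List.isChain_cons_cons.2 ⟨hab.1, h2⟩
    · rw [List.getLast_cons (by simp)]
      exact h3

/-- an open ear, possibly with repeated interior vertices -/
def PreEar (A : Finset (V × V)) (W : Finset V) (w w' : V) (p : List V) : Prop :=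
  p ≠ [] ∧ (∀ m ∈ p, m ∉ W) ∧ List.IsChain (fun u v => (u, v) ∈ A) (w :: (p ++ [w']))

theorem exists_preEar {A : Finset (V × V)} {W : Finset V} (hsc : StronglyConnected A)
    (hna : NoArticulation A) {w₀ w₁ z₀ : V} (h0 : w₀ ∈ W) (h1 : w₁ ∈ W) (h01 : w₀ ≠ w₁)
    (hz : z₀ ∉ W) : ∃ w ∈ W, ∃ w' ∈ W, w ≠ w' ∧ ∃ p, PreEar A W w w' p := by
  by_contra hcon
  push Not at hcon
  have key : ∀ z w w', Src A W z w → Snk A W z w' → w = w' := by
    rintro z w w' ⟨hw, x, hx, hwx, hxz⟩ ⟨hw', y, hy, hyw', hzy⟩
    by_contra hne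
    obtain ⟨p, hp1, hp2, hp3⟩ := out_list hx (hxz.trans hzy)
    refine hcon w hw w' hw' hne (x :: p) ⟨by simp, hp1, ?_⟩
    rw [List.cons_append, List.isChain_cons_cons]
    refine ⟨hwx, ?_⟩
    rw [← List.cons_append]
    refine List.IsChain.append hp2 (List.isChain_singleton _) ?_
    intro a ha b hb
    rw [List.getLast?_eq_some_getLast (by simp), hp3] at ha
    simp only [List.head?_cons, Option.mem_def, Option.some.injEq] at ha hb
    rw [← ha, ← hb]
    exact hyw'
  obtain ⟨v, hv⟩ := exists_src h0 hz (hsc w₀ z₀)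
  -- a vertex of `W` different from `v`
  obtain ⟨w₂, hw₂, hw₂v⟩ : ∃ w₂ ∈ W, w₂ ≠ v := by
    by_cases h : w₀ = v
    · exact ⟨w₁, h1, fun h' => h01 (h.trans h'.symm)⟩
    · exact ⟨w₀, h0, h⟩
  have hz₀v : z₀ ≠ v := by
    rintro rfl
    exact hz hv.1
  have hprop : ∀ y, ReflTransGen (Und A v) z₀ y → y ∉ W ∧ Src A W y v := by
    intro y hy
    induction hy with
    | refl => exact ⟨hz, hv⟩
    | tail hab hbc ih =>
      rename_i b c
      obtain ⟨hbW, hbv⟩ := ih
      obtain ⟨s, hs⟩ := exists_snk h0 hbW (hsc b w₀)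
      have hvs := key b v s hbv hs
      rcases hbc.2.2 with h | h
      · by_cases hc : c ∈ W
        · exact absurd (key b v c hbv ⟨hc, b, hbW, h, ReflTransGen.refl⟩).symm hbc.2.1
        · obtain ⟨hvW, x, hx, hvx, hxb⟩ := hbv
          exact ⟨hc, hvW, x, hx, hvx, hxb.tail ⟨h, hbW, hc⟩⟩
      · by_cases hc : c ∈ W
        · have := key b c s ⟨hc, b, hbW, h, ReflTransGen.refl⟩ hs
          exact absurd (this.trans hvs.symm) hbc.2.1
        · obtain ⟨t, ht⟩ := exists_src h0 hc (hsc w₀ c)
          obtain ⟨htW, x, hx, htx, hxc⟩ := ht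
          have h3 : Src A W b t := ⟨htW, x, hx, htx, hxc.tail ⟨h, hc, hbW⟩⟩
          have h4 := key b t s h3 hs
          have h5 : t = v := h4.trans hvs.symm
          subst h5
          exact ⟨hc, htW, x, hx, htx, hxc⟩
  exact (hprop w₂ (hna v z₀ w₂ hz₀v hw₂v)).1 hw₂

/-- removing repetitions from the interior -/
theorem exists_nodup {A : Finset (V × V)} {W : Finset V} {w w' : V} {p : List V}
    (hp : PreEar A W w w' p) : ∃ q, PreEar A W w w' q ∧ q.Nodup := by
  classical
  have hex : ∃ n, ∃ q, PreEar A W w w' q ∧ q.length = n := ⟨_, p, hp, rfl⟩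
  obtain ⟨q, hq, hqn⟩ := Nat.find_spec hex
  refine ⟨q, hq, ?_⟩
  by_contra hnd
  rw [← List.exists_duplicate_iff_not_nodup] at hnd
  obtain ⟨x, hx⟩ := hnd
  rw [List.duplicate_iff_sublist] at hx
  obtain ⟨a, q2, rfl, ha⟩ : ∃ a q2, q = a ++ x :: q2 ∧ x ∈ q2 := by
    have hxq : x ∈ q := hx.subset (by simp)
    clear hqn hq
    induction q with
    | nil => simp at hxq
    | cons b q ih =>
      by_cases hbx : b = x
      · subst hbx
        refine ⟨[], q, rfl, ?_⟩
        have := List.cons_sublist_cons.1 hx
        exact List.singleton_sublist.1 this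
      · have h1 : List.Sublist [x, x] q := by
          cases hx with
          | cons _ h => exact h
          | cons_cons _ h => exact absurd rfl hbx
        obtain ⟨a, q2, h2, h3⟩ := ih h1 (h1.subset (by simp))
        exact ⟨b :: a, q2, by rw [h2]; rfl, h3⟩
  obtain ⟨b, c, rfl⟩ := List.append_of_mem ha
  have hshort : PreEar A W w w' (a ++ x :: c) := by
    obtain ⟨h1, h2, h3⟩ := hq
    refine ⟨by simp, ?_, ?_⟩
    · intro m hm
      apply h2
      simp only [List.mem_append, List.mem_cons] at hm ⊢
      tauto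
    · have h4 : List.IsChain (fun u v => (u, v) ∈ A) (w :: (a ++ [x])) := by
        refine sub_chain h3 ([]) ((b ++ x :: c) ++ [w']) (?_)
        simp
      have h5 : List.IsChain (fun u v => (u, v) ∈ A) (x :: (c ++ [w'])) := by
        refine sub_chain h3 (w :: (a ++ x :: b)) ([]) (?_)
        simp
      have h6 := List.isChain_split.2 (⟨by simpa using h4, h5⟩ :
        List.IsChain (fun u v => (u, v) ∈ A) ((w :: a) ++ [x]) ∧
          List.IsChain (fun u v => (u, v) ∈ A) (x :: (c ++ [w'])))
      simpa using h6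
  have h7 := Nat.find_min' hex ⟨_, hshort, rfl⟩
  rw [← hqn] at h7
  simp at h7
  omega

/-- the arcs of a list -/
theorem exists_arcs [DecidableEq V] (A : Finset (V × V)) (l : List V)
    (h : List.IsChain (fun u v => (u, v) ∈ A) l) : ∃ E ⊆ A, E.card ≤ l.length - 1 ∧
      List.IsChain (fun u v => (u, v) ∈ E) l := by
  induction l with
  | nil => exact ⟨∅, by simp, by simp, List.isChain_nil⟩
  | cons a l ih =>
    cases l with
    | nil => exact ⟨∅, by simp, by simp, List.isChain_singleton _⟩
    | cons b l =>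
      rw [List.isChain_cons_cons] at h
      obtain ⟨E, hE, hEc, hch⟩ := ih h.2
      refine ⟨insert (a, b) E, Finset.insert_subset h.1 hE, ?_, ?_⟩
      · refine (Finset.card_insert_le _ _).trans ?_
        simp only [List.length_cons] at hEc ⊢
        omega
      · rw [List.isChain_cons_cons]
        exact ⟨Finset.mem_insert_self _ _, hch.imp fun u v huv => Finset.mem_insert_of_mem huv⟩

theorem chain_und {E : Finset (V × V)} {z : V} {l : List V}
    (h : List.IsChain (fun u v => (u, v) ∈ E) l) (hz : ∀ m ∈ l, m ≠ z) :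
    List.IsChain (Und E z) l := by
  induction l with
  | nil => exact List.isChain_nil
  | cons a l ih =>
    cases l with
    | nil => exact List.isChain_singleton _
    | cons b l =>
      rw [List.isChain_cons_cons] at h ⊢
      exact ⟨⟨hz a (by simp), hz b (by simp), Or.inl h.1⟩,
        ih h.2 fun m hm => hz m (List.mem_cons_of_mem _ hm)⟩

theorem chain_reach {R : V → V → Prop} {a b : V} {l : List V}
    (h : List.IsChain R (a :: (l ++ [b]))) : ReflTransGen R a b := by
  exact List.relationReflTransGen_of_exists_isChain_cons (l ++ [b]) h (by simp)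

/-- the arcs of `K` strongly connect `W` -/
def SC (K : Finset (V × V)) (W : Finset V) : Prop :=
  ∀ u ∈ W, ∀ v ∈ W, ReflTransGen (fun x y => (x, y) ∈ K) u v

/-- no vertex disconnects `W` in the underlying graph of `K` -/
def BC (K : Finset (V × V)) (W : Finset V) : Prop :=
  ∀ z, ∀ u ∈ W, ∀ v ∈ W, u ≠ z → v ≠ z → ReflTransGen (Und K z) u v

theorem rtg_mono {K K' : Finset (V × V)} (h : K ⊆ K') {u v : V}
    (huv : ReflTransGen (fun x y => (x, y) ∈ K) u v) :
    ReflTransGen (fun x y => (x, y) ∈ K') u v :=
  ReflTransGen.mono (fun _ _ hab => h hab) _ _ huv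

theorem und_mono {K K' : Finset (V × V)} (h : K ⊆ K') {z u v : V}
    (huv : ReflTransGen (Und K z) u v) : ReflTransGen (Und K' z) u v :=
  ReflTransGen.mono (fun _ _ hab => ⟨hab.1, hab.2.1, hab.2.2.imp (fun h' => h h') fun h' => h h'⟩)
    _ _ huv

theorem ear_sc [DecidableEq V] {K E : Finset (V × V)} {W : Finset V} {w w' : V} {p : List V}
    (hE : List.IsChain (fun u v => (u, v) ∈ E) (w :: (p ++ [w'])))
    (hback : ReflTransGen (fun x y => (x, y) ∈ K ∪ E) w' w)
    (hW : ∀ u ∈ W, ReflTransGen (fun x y => (x, y) ∈ K ∪ E) u w' ∧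
      ReflTransGen (fun x y => (x, y) ∈ K ∪ E) w u) : SC (K ∪ E) (W ∪ p.toFinset) := by
  have hall : ∀ u ∈ W ∪ p.toFinset, ReflTransGen (fun x y => (x, y) ∈ K ∪ E) u w' ∧
      ReflTransGen (fun x y => (x, y) ∈ K ∪ E) w u := by
    intro u hu
    rcases Finset.mem_union.1 hu with hu | hu
    · exact hW u hu
    · rw [List.mem_toFinset] at hu
      obtain ⟨p1, p2, rfl⟩ := List.append_of_mem hu
      constructor
      · apply rtg_mono Finset.subset_union_right
        apply chain_reach (l := p2)
        exact sub_chain hE (w :: p1) ([]) (by simp)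
      · apply rtg_mono Finset.subset_union_right
        apply chain_reach (l := p1)
        exact sub_chain hE ([]) (p2 ++ [w']) (by simp)
  intro u hu v hv
  exact ((hall u hu).1.trans hback).trans (hall v hv).2

theorem ear_bc [DecidableEq V] {K E : Finset (V × V)} {W : Finset V} {w w' : V} {p : List V}
    (hw : w ∈ W) (hw' : w' ∈ W) (hne : w ≠ w') (hnd : p.Nodup) (hp : ∀ m ∈ p, m ∉ W)
    (hE : List.IsChain (fun u v => (u, v) ∈ E) (w :: (p ++ [w']))) (hK : BC K W) :
    BC (K ∪ E) (W ∪ p.toFinset) := by
  have hall : ∀ z, ∀ u ∈ W ∪ p.toFinset, u ≠ z → ∃ y ∈ W, y ≠ z ∧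
      ReflTransGen (Und (K ∪ E) z) u y := by
    intro z u hu huz
    rcases Finset.mem_union.1 hu with hu | hu
    · exact ⟨u, hu, huz, ReflTransGen.refl⟩
    · rw [List.mem_toFinset] at hu
      obtain ⟨p1, p2, rfl⟩ := List.append_of_mem hu
      by_cases hz : ∀ m ∈ p2 ++ [w'], m ≠ z
      · refine ⟨w', hw', hz w' (by simp), ?_⟩
        apply und_mono Finset.subset_union_right
        apply chain_reach (l := p2)
        refine chain_und (sub_chain hE (w :: p1) ([]) (by simp)) ?_
        intro m hm
        rcases List.mem_cons.1 hm with rfl | hm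
        · exact huz
        · exact hz m hm
      · push Not at hz
        obtain ⟨m, hm, rfl⟩ := hz
        have hmem : m ∈ p2 ∨ m = w' := by simpa using hm
        have hwm : w ≠ m := by
          rintro rfl
          rcases hmem with h | h
          · exact hp w (by simp [h]) hw
          · exact hne h
        refine ⟨w, hw, hwm, ?_⟩
        apply und_rtg_symm
        apply und_mono Finset.subset_union_right
        apply chain_reach (l := p1)
        refine chain_und (sub_chain hE ([]) (p2 ++ [w']) (by simp)) ?_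
        intro k hk
        rw [← List.cons_append, List.mem_append, List.mem_cons, List.mem_singleton] at hk
        rcases hk with (rfl | hk) | rfl
        · exact hwm
        · rintro rfl
          rcases hmem with h | h
          · rw [List.nodup_append] at hnd
            exact hnd.2.2 k hk k (by simp [h]) rfl
          · exact hp k (by simp [hk]) (h ▸ hw')
        · exact huz
  intro z u hu v hv huz hvz
  obtain ⟨y, hy, hyz, hy'⟩ := hall z u hu huz
  obtain ⟨x, hx, hxz, hx'⟩ := hall z v hv hvz
  exact (hy'.trans (und_mono Finset.subset_union_left (hK z y hy x hx hyz hxz))).trans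
    (und_rtg_symm hx')

/-- a strongly biconnected part of `A` with few arcs -/
structure Inv (A : Finset (V × V)) (W : Finset V) (K : Finset (V × V)) : Prop where
  sub : K ⊆ A
  sc : SC K W
  bc : BC K W
  two : 2 ≤ W.card
  cnt : K.card + 3 ≤ 2 * W.card

theorem Inv.extend [DecidableEq V] {A K : Finset (V × V)} {W : Finset V}
    (hsc : StronglyConnected A) (hna : NoArticulation A) (hI : Inv A W K) {z : V} (hz : z ∉ W) :
    ∃ W' K', Inv A W' K' ∧ W.card < W'.card := by
  obtain ⟨w₀, h0, w₁, h1, h01⟩ := Finset.one_lt_card.1 hI.two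
  obtain ⟨w, hw, w', hw', hne, p, hp⟩ := exists_preEar hsc hna h0 h1 h01 hz
  obtain ⟨q, ⟨hq0, hqW, hqc⟩, hnd⟩ := exists_nodup hp
  obtain ⟨E, hEA, hEc, hE⟩ := exists_arcs A _ hqc
  have hq1 : 1 ≤ q.length := List.length_pos_iff.2 hq0
  have hcard : (W ∪ q.toFinset).card = W.card + q.length := by
    rw [Finset.card_union_of_disjoint, List.toFinset_card_of_nodup hnd]
    rw [Finset.disjoint_left]
    intro a ha ha'
    exact hqW a (List.mem_toFinset.1 ha') ha
  have hEc' : E.card ≤ q.length + 1 := by simpa using hEc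
  have hKE := Finset.card_union_le K E
  have hcnt := hI.cnt
  have htwo := hI.two
  refine ⟨W ∪ q.toFinset, K ∪ E, ⟨Finset.union_subset hI.sub hEA, ?_, ?_, ?_, ?_⟩, ?_⟩
  · refine ear_sc hE (rtg_mono Finset.subset_union_left (hI.sc w' hw' w hw)) ?_
    intro u hu
    exact ⟨rtg_mono Finset.subset_union_left (hI.sc u hu w' hw'),
      rtg_mono Finset.subset_union_left (hI.sc w hw u hu)⟩
  · exact ear_bc hw hw' hne hnd hqW hE hI.bc
  · omega
  · omega
  · omega

theorem Inv.start_of_ear [DecidableEq V] {A : Finset (V × V)} {w w' : V} (hne : w ≠ w')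
    (hback : (w', w) ∈ A) {p : List V} (hp : PreEar A {w, w'} w w' p) :
    ∃ W K, Inv A W K := by
  obtain ⟨q, ⟨hq0, hqW, hqc⟩, hnd⟩ := exists_nodup hp
  obtain ⟨E, hEA, hEc, hE⟩ := exists_arcs A _ hqc
  have hq1 : 1 ≤ q.length := List.length_pos_iff.2 hq0
  have hcard : (({w, w'} : Finset V) ∪ q.toFinset).card = 2 + q.length := by
    rw [Finset.card_union_of_disjoint, List.toFinset_card_of_nodup hnd, Finset.card_pair hne]
    rw [Finset.disjoint_left]
    intro a ha ha'
    exact hqW a (List.mem_toFinset.1 ha') ha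
  have hEc' : E.card ≤ q.length + 1 := by simpa using hEc
  have hKE := Finset.card_union_le ({(w', w)} : Finset (V × V)) E
  rw [Finset.card_singleton] at hKE
  have hww' : ReflTransGen (fun x y => (x, y) ∈ ({(w', w)} : Finset (V × V)) ∪ E) w w' :=
    rtg_mono Finset.subset_union_right (chain_reach hE)
  refine ⟨{w, w'} ∪ q.toFinset, {(w', w)} ∪ E, ⟨?_, ?_, ?_, ?_, ?_⟩⟩
  · exact Finset.union_subset (by simpa using hback) hEA
  · refine ear_sc hE (ReflTransGen.single (by simp)) ?_
    intro u hu
    rcases Finset.mem_insert.1 hu with rfl | hu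
    · exact ⟨hww', ReflTransGen.refl⟩
    · rw [Finset.mem_singleton] at hu
      subst hu
      exact ⟨ReflTransGen.refl, hww'⟩
  · refine ear_bc (by simp) (by simp) hne hnd hqW hE ?_
    intro z u hu v hv huz hvz
    rw [Finset.mem_insert, Finset.mem_singleton] at hu hv
    rcases hu with rfl | rfl <;> rcases hv with rfl | rfl
    · exact ReflTransGen.refl
    · exact ReflTransGen.single ⟨huz, hvz, Or.inr (by simp)⟩
    · exact ReflTransGen.single ⟨huz, hvz, Or.inl (by simp)⟩
    · exact ReflTransGen.refl
  · omega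
  · omega

theorem Inv.start [DecidableEq V] [Fintype V] {A : Finset (V × V)} (hloop : ∀ a ∈ A, a.1 ≠ a.2)
    (hsc : StronglyConnected A) (hna : NoArticulation A) (hV : 3 ≤ Fintype.card V) :
    ∃ W K, Inv A W K := by
  -- an arc
  obtain ⟨s, t, hst⟩ : ∃ s t : V, (s, t) ∈ A := by
    obtain ⟨a, b, hab⟩ := Fintype.exists_pair_of_one_lt_card (show 1 < Fintype.card V by omega)
    rcases ReflTransGen.cases_head (hsc a b) with h | ⟨c, hc, _⟩
    · exact absurd h hab
    · exact ⟨a, c, hc⟩
  have hne : s ≠ t := hloop _ hst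
  by_cases hts : (t, s) ∈ A
  · -- a vertex outside `{s, t}`
    obtain ⟨z, hz⟩ : ∃ z, z ∉ ({s, t} : Finset V) := by
      by_contra hcon
      push Not at hcon
      have h1 : (Finset.univ : Finset V) ⊆ {s, t} := fun x _ => hcon x
      have h2 := Finset.card_le_card h1
      rw [Finset.card_univ] at h2
      have h3 := Finset.card_le_two (a := s) (b := t)
      omega
    obtain ⟨w, hw, w', hw', hww', p, hp⟩ := exists_preEar hsc hna (w₀ := s) (w₁ := t)
      (by simp) (by simp) hne hz
    rw [Finset.mem_insert, Finset.mem_singleton] at hw hw'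
    rcases hw with rfl | rfl <;> rcases hw' with rfl | rfl
    · exact absurd rfl hww'
    · exact Inv.start_of_ear hww' hts hp
    · rw [Finset.pair_comm] at hp
      exact Inv.start_of_ear hww' hst hp
    · exact absurd rfl hww'
  · -- a shortest walk from `t` to `s`
    classical
    have hex : ∃ n, ∃ p : List V, List.IsChain (fun u v => (u, v) ∈ A) (t :: (p ++ [s])) ∧
        p.length = n := by
      obtain ⟨l, hl, hlast⟩ := List.exists_isChain_cons_of_relationReflTransGen (hsc t s)
      have hl0 : l ≠ [] := by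
        rintro rfl
        exact hne hlast.symm
      refine ⟨_, l.dropLast, ?_, rfl⟩
      have h1 : l.dropLast ++ [s] = l := by
        rw [List.getLast_cons hl0] at hlast
        conv_rhs => rw [← List.dropLast_append_getLast hl0]
        rw [hlast]
      rw [h1]
      exact hl
    obtain ⟨p, hp, hpn⟩ := Nat.find_spec hex
    have hmin : ∀ q : List V, List.IsChain (fun u v => (u, v) ∈ A) (t :: (q ++ [s])) →
        p.length ≤ q.length := by
      intro q hq
      rw [hpn]
      exact Nat.find_min' hex ⟨q, hq, rfl⟩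
    have hp0 : p ≠ [] := by
      rintro rfl
      exact hts (by simpa using hp)
    have hpt : t ∉ p := by
      intro h
      obtain ⟨a, b, rfl⟩ := List.append_of_mem h
      have := hmin b (sub_chain hp (t :: a) ([]) (by simp))
      simp at this
      omega
    have hps : s ∉ p := by
      intro h
      obtain ⟨a, b, rfl⟩ := List.append_of_mem h
      have := hmin a (sub_chain hp ([]) (b ++ [s]) (by simp))
      simp at this
    refine Inv.start_of_ear hne.symm hst (p := p) ⟨hp0, ?_, hp⟩
    intro m hm hmem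
    rw [Finset.mem_insert, Finset.mem_singleton] at hmem
    rcases hmem with rfl | rfl
    · exact hpt hm
    · exact hps hm

theorem Inv.all [DecidableEq V] [Fintype V] {A : Finset (V × V)}
    (hsc : StronglyConnected A) (hna : NoArticulation A) :
    ∀ (k : ℕ) (W : Finset V) (K : Finset (V × V)), Inv A W K → Fintype.card V - W.card = k →
      ∃ K', Inv A Finset.univ K' := by
  intro k
  induction k using Nat.strong_induction_on with
  | _ k ih =>
    intro W K hI hk
    by_cases hW : W = Finset.univ
    · exact ⟨K, hW ▸ hI⟩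
    · obtain ⟨z, hz⟩ : ∃ z, z ∉ W := by
        by_contra hcon
        push Not at hcon
        exact hW (Finset.eq_univ_iff_forall.2 hcon)
      obtain ⟨W', K', hI', hlt⟩ := hI.extend hsc hna hz
      have h1 := Finset.card_le_univ W'
      exact ih (Fintype.card V - W'.card) (by omega) W' K' hI' rfl

/-- **Q1 of MP_5e4462_co, positive answer.**  A minimal strongly biconnected digraph on `n` vertices
has at most `2 n` arcs, and at most `2 n - 3` arcs if `n ≥ 3`. -/
theorem result (V : Type) [Fintype V] [DecidableEq V] (A : Finset (V × V)) (hA : Minimal A) :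
    A.card ≤ 2 * Fintype.card V ∧ (3 ≤ Fintype.card V → A.card + 3 ≤ 2 * Fintype.card V) := by
  obtain ⟨⟨hloop, hsc, hna⟩, hmin⟩ := hA
  have hbig : 3 ≤ Fintype.card V → A.card + 3 ≤ 2 * Fintype.card V := by
    intro hV
    obtain ⟨W, K, hI⟩ := Inv.start hloop hsc hna hV
    obtain ⟨K', hK'⟩ := Inv.all hsc hna _ W K hI rfl
    have hKA : K' = A := by
      by_contra hne
      obtain ⟨e, he, heK⟩ := Finset.exists_of_ssubset (lt_of_le_of_ne hK'.sub hne)
      have hsub : K' ⊆ A.erase e := fun x hx =>
        Finset.mem_erase.2 ⟨fun h => heK (h ▸ hx), hK'.sub hx⟩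
      refine hmin e he ⟨fun a ha => hloop a (Finset.mem_of_mem_erase ha), ?_, ?_⟩
      · intro u v
        exact rtg_mono hsub (hK'.sc u (Finset.mem_univ _) v (Finset.mem_univ _))
      · intro z u v huz hvz
        exact und_mono hsub (hK'.bc z u (Finset.mem_univ _) v (Finset.mem_univ _) huz hvz)
    have := hK'.cnt
    rw [hKA, Finset.card_univ] at this
    exact this
  refine ⟨?_, hbig⟩
  by_cases hV : 3 ≤ Fintype.card V
  · have := hbig hV
    omega
  · have h1 : A ⊆ (Finset.univ : Finset V).offDiag := by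
      intro a ha
      rw [Finset.mem_offDiag]
      exact ⟨Finset.mem_univ _, Finset.mem_univ _, hloop a ha⟩
    have h2 := Finset.card_le_card h1
    rw [Finset.offDiag_card, Finset.card_univ] at h2
    have h3 : Fintype.card V = 0 ∨ Fintype.card V = 1 ∨ Fintype.card V = 2 := by omega
    rcases h3 with h3 | h3 | h3 <;> rw [h3] at h2 ⊢ <;> omega

end Pool.Agent.Results.MP_5e4462_co.ArcBound
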